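import Pool.Agent.H18.MT3

set_option autoImplicit false

namespace Pool.Agent.Results.MP_d9033c_gt.CH

open Set Pool.Agent.H8.Tau

/-- Under CH there is a set of reals in which every open `ω`-cover contains a `τ`-cover, but some
open `ω`-cover contains no `γ`-cover. -/
theorem result : Cardinal.continuum.{0} = Cardinal.aleph 1 →
    ∃ X : Set ℝ,
      (∀ C : Set (Set X), (∀ U ∈ C, IsOpen U) → Set.univ ∉ C →
          (∀ F : Finset X, ∃ U ∈ C, ∀ x ∈ F, x ∈ U) →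
          ∃ D ⊆ C, (∀ x : X, {U | U ∈ D ∧ x ∈ U}.Infinite) ∧
            ∀ x y : X, {U | U ∈ D ∧ x ∈ U ∧ y ∉ U}.Finite ∨
              {U | U ∈ D ∧ y ∈ U ∧ x ∉ U}.Finite) ∧
      ∃ C : Set (Set X), (∀ U ∈ C, IsOpen U) ∧ Set.univ ∉ C ∧
          (∀ F : Finset X, ∃ U ∈ C, ∀ x ∈ F, x ∈ U) ∧
          ¬ ∃ D ⊆ C, D.Infinite ∧ ∀ x : X, {U | U ∈ D ∧ x ∉ U}.Finite := by
  intro hCH
  obtain ⟨X, φ, h⟩ := Pool.Agent.H18.MT.real hCH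
  haveI := h.ne
  refine ⟨X, fun C c1 c2 c3 => ?_, ?_⟩
  · obtain ⟨𝒱, v1, -, -, -, v2, -⟩ := h.split (𝒰 := C) ⟨⟨c1, eq_univ_of_forall fun x => by
      obtain ⟨U, u1, u2⟩ := c3 {x}
      exact ⟨U, u1, u2 x (Finset.mem_singleton_self x)⟩, c2⟩, fun F hF => by
      obtain ⟨U, u1, u2⟩ := c3 hF.toFinset
      exact ⟨U, u1, fun x hx => u2 x (hF.mem_toFinset.mpr hx)⟩⟩
    exact ⟨𝒱, v1, v2.2⟩
  · obtain ⟨𝒰, u1, u2⟩ := h.nogamma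
    refine ⟨𝒰, u1.1.1, u1.1.2.2, fun F => (it_om u1.1 u1.enum').2 F F.finite_toSet, ?_⟩
    rintro ⟨D, d1, d2, d3⟩
    obtain ⟨x, hx⟩ := u2 D d1 d2
    exact hx (d3 x)

end Pool.Agent.Results.MP_d9033c_gt.CH
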